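import Mathlib

set_option autoImplicit false

namespace Pool.Agent.H.MP_6c6e33_an

open Filter Topology Set Submodule InnerProductSpace

/-- a bijection from the integers onto the plane lattice is not a graph isomorphism -/
lemma comb (σ : ℤ ≃ ℤ × ℤ) {F : Set (ℤ × ℤ)} (hF : F.Finite)
    (h : ∀ j k t : ℤ, σ j - σ k ∈ F → σ (j + t) - σ (k + t) ∈ F) {u : ℤ × ℤ} (hu : u ∈ F) :
    u = 0 := by
  by_contra u0
  by_cases hv : ∃ v ∈ F, u.1 * v.2 - u.2 * v.1 ≠ 0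
  · obtain ⟨v, hv, hd⟩ := hv
    obtain ⟨R, hR⟩ : ∃ R : ℕ, ∀ w ∈ F, ∀ x, |σ.symm (x + w) - σ.symm x| ≤ R := by
      obtain ⟨R, hR⟩ := (hF.image fun w => (σ.symm (w + σ 0)).natAbs).bddAbove
      refine ⟨R, fun w hw x => ?_⟩
      have a1 := h (σ.symm (x + w)) (σ.symm x) (-σ.symm x) (by simpa using hw)
      have a2 := hR ⟨_, a1, rfl⟩
      simp only [add_neg_cancel, sub_add_cancel, Equiv.symm_apply_apply] at a2
      rw [sub_eq_add_neg, ← Int.natCast_natAbs]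
      exact_mod_cast a2
    have a1 : ∀ w ∈ F, ∀ (n : ℕ) x, |σ.symm (x + n • w) - σ.symm x| ≤ n * R := fun w hw n x => by
      induction n with
      | zero => simp
      | succ n ih =>
        have := hR w hw (x + n • w)
        rw [succ_nsmul, ← add_assoc]
        push_cast
        rw [abs_le] at *
        constructor <;> linarith [this.1, this.2, ih.1, ih.2]
    have a2 := Finset.card_le_card_of_injOn (s := Finset.range (4 * R + 2) ×ˢ Finset.range (4 * R + 2))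
      (t := Finset.Icc (σ.symm 0 - 2 * (4 * R + 2) * R) (σ.symm 0 + 2 * (4 * R + 2) * R))
      (fun p => σ.symm (p.1 • u + p.2 • v)) (fun p hp => by
        simp only [Finset.coe_product, Finset.coe_range, Set.mem_prod, mem_Iio] at hp
        have b1 := abs_le.1 (a1 u hu p.1 0)
        have b2 := abs_le.1 (a1 v hv p.2 (p.1 • u))
        have b3 : (p.1 : ℤ) * R ≤ (4 * R + 2) * R := by gcongr; exact_mod_cast hp.1.le
        have b4 : (p.2 : ℤ) * R ≤ (4 * R + 2) * R := by gcongr; exact_mod_cast hp.2.le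
        rw [zero_add] at b1
        simp only [Finset.coe_Icc, mem_Icc]
        constructor <;> linarith [b1.1, b1.2, b2.1, b2.2])
      fun p _ q _ hpq => by
        have b1 := σ.symm.injective hpq
        have b2 := congrArg Prod.fst b1
        have b3 := congrArg Prod.snd b1
        simp only [Prod.fst_add, Prod.snd_add, Prod.smul_fst, Prod.smul_snd] at b2 b3
        simp only [nsmul_eq_mul] at b2 b3
        refine Prod.ext ?_ ?_
        · exact_mod_cast mul_right_cancel₀ hd (show (p.1 : ℤ) * _ = q.1 * _ by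
            linear_combination v.2 * b2 - v.1 * b3)
        exact_mod_cast mul_right_cancel₀ hd (show (p.2 : ℤ) * _ = q.2 * _ by
          linear_combination u.1 * b3 - u.2 * b2)
    rw [Finset.card_product, Finset.card_range, Int.card_Icc] at a2
    have a3 : (((4 * R + 2) * (4 * R + 2) : ℕ) : ℤ) ≤ 4 * (4 * R + 2) * R + 1 := by
      refine (Int.ofNat_le.2 a2).trans_eq ?_
      rw [Int.toNat_of_nonneg (by nlinarith)]
      ring
    push_cast at a3
    nlinarith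
  push Not at hv
  let φ : ℤ → ℤ := fun k => u.1 * (σ k).2 - u.2 * (σ k).1
  have a1 : σ.symm u - σ.symm 0 ≠ 0 := fun e => u0 (σ.symm.injective (sub_eq_zero.1 e))
  have a2 : Function.Periodic φ (σ.symm u - σ.symm 0) := fun k => by
    have := hv _ (h (σ.symm u) (σ.symm 0) (k - σ.symm 0) (by simpa using hu))
    rw [add_sub_cancel, show σ.symm u + (k - σ.symm 0) = k + (σ.symm u - σ.symm 0) by ring] at this
    simp only [Prod.fst_sub, Prod.snd_sub] at this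
    simp only [φ]
    linarith
  have a3 : (range φ).Finite := by
    refine ((finite_Ico 0 |σ.symm u - σ.symm 0|).image φ).subset ?_
    rintro _ ⟨k, rfl⟩
    refine ⟨k % (σ.symm u - σ.symm 0), ⟨Int.emod_nonneg _ a1, Int.emod_lt_abs _ a1⟩, ?_⟩
    rw [Int.emod_def, mul_comm]
    exact a2.sub_int_mul_eq _
  have a4 : u.1 ^ 2 + u.2 ^ 2 ≠ 0 := fun e => u0 (Prod.ext (by simp; nlinarith) (by simp; nlinarith))
  refine infinite_of_injective_forall_mem (f := fun n : ℤ => n * (u.1 ^ 2 + u.2 ^ 2))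
    (mul_left_injective₀ a4) (fun n => mem_range.2 ⟨σ.symm (-n * u.2, n * u.1), ?_⟩) a3
  simp only [φ, Equiv.apply_symm_apply]
  ring

variable {E : Type} [NormedAddCommGroup E] [InnerProductSpace ℂ E] {ι : Type}

lemma exJ [CompleteSpace E] (e : HilbertBasis ι ℂ E) {s : ι → ι} (hs : s.Injective) {a : ι → ℂ}
    (ha : ∀ i, ‖a i‖ = 1) : ∃ J : E →ₗᵢ[ℂ] E, ∀ i, J (e i) = a i • e (s i) := by
  classical
  have hv : Orthonormal ℂ fun i => a i • e (s i) := ⟨fun i => by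
    rw [norm_smul, ha, e.orthonormal.1, mul_one], fun i j h => by
    simp only [inner_smul_left, inner_smul_right, e.orthonormal.2 (hs.ne h), mul_zero]⟩
  refine ⟨hv.orthogonalFamily.linearIsometry.comp e.repr.toLinearIsometry, fun i => ?_⟩
  simp [e.repr_self, OrthogonalFamily.linearIsometry_apply_single]

lemma pyth (N : Submodule ℂ E) [N.HasOrthogonalProjection] (J : E →ₗᵢ[ℂ] E)
    (hJ : ∀ c ∈ N, J c ∈ N) (x : E) : ‖x - N.starProjection x‖ ^ 2 =
      ‖J x - N.starProjection (J x)‖ ^ 2 + ‖N.starProjection (J x) - J (N.starProjection x)‖ ^ 2 := by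
  rw [← J.norm_map, map_sub, sq, sq, sq, ← norm_add_sq_eq_norm_sq_add_norm_sq_of_inner_eq_zero
    (𝕜 := ℂ), sub_add_sub_cancel]
  exact inner_left_of_mem_orthogonal (sub_mem (N.starProjection_apply_mem _)
    (hJ _ (N.starProjection_apply_mem _))) (N.sub_starProjection_mem_orthogonal _)

/-- the abstract intertwining condition -/
def Tw {H : Type} [NormedAddCommGroup H] [InnerProductSpace ℂ H] (f : ι → H) (s : ι → ι) : Prop :=
  ∃ a : ι → ℂ, (∀ i, ‖a i‖ = 1) ∧ ∀ φ, ∃ ψ, ∀ i, ⟪f i, ψ⟫_ℂ = a i * ⟪f (s i), φ⟫_ℂ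

variable {H : Type} [NormedAddCommGroup H] [InnerProductSpace ℂ H] [CompleteSpace E]

lemma exJ' (e : HilbertBasis ι ℂ E) {f : ι → H} (C : H →L[ℂ] E)
    (hC : ∀ i φ, ⟪e i, C φ⟫_ℂ = ⟪f i, φ⟫_ℂ) {s : ι → ι} (hs : s.Injective) (h : Tw f s) :
    ∃ (J : E →ₗᵢ[ℂ] E) (a : ι → ℂ), (∀ i, ‖a i‖ = 1) ∧ (∀ i, J (e i) = a i • e (s i)) ∧
      ∀ c ∈ C.rangeᗮ, J c ∈ C.rangeᗮ := by
  obtain ⟨a, ha, h⟩ := h
  obtain ⟨J, hJ⟩ := exJ e hs (a := fun i => (starRingEnd ℂ) (a i)) fun i => by simpa using ha i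
  refine ⟨J, _, fun i => by simpa using ha i, hJ, fun c hc => ?_⟩
  rintro _ ⟨φ, rfl⟩
  obtain ⟨ψ, hψ⟩ := h φ
  have : (innerSL ℂ (C φ)).comp J.toContinuousLinearMap = innerSL ℂ (C ψ) :=
    ContinuousLinearMap.ext_on (dense_iff_topologicalClosure_eq_top.2 e.dense_span) (by
      rintro _ ⟨i, rfl⟩
      simp only [ContinuousLinearMap.comp_apply, LinearIsometry.coe_toContinuousLinearMap, hJ,
        innerSL_apply_apply, inner_smul_right]
      rw [← inner_conj_symm (C ψ), ← inner_conj_symm (C φ), hC, hC, hψ, map_mul])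
  exact (DFunLike.congr_fun this c).trans (hc _ ⟨ψ, rfl⟩)

theorem ker_bot (e : HilbertBasis (ℤ × ℤ) ℂ E) {f : ℤ × ℤ → H} (C : H →L[ℂ] E)
    (hC : ∀ i φ, ⟪e i, C φ⟫_ℂ = ⟪f i, φ⟫_ℂ) (f0 : f 0 ≠ 0) (hT : ∀ μ, Tw f (· + μ))
    {s : ℤ × ℤ → ℤ × ℤ} (hs : s.Injective) (h : Tw f s)
    (h' : (∃ x, x ∉ range s ∧ ∀ i, i ≠ x → i ∈ range s) ∨
      ∃ σ : ℤ ≃ ℤ × ℤ, ∀ k, s (σ k) = σ (k + 1)) : C.rangeᗮ = ⊥ := by
  obtain ⟨N, hN⟩ : ∃ N, N = C.rangeᗮ := ⟨_, rfl⟩
  have : N.HasOrthogonalProjection := hN ▸ inferInstance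
  have A1 : ∀ s : ℤ × ℤ → ℤ × ℤ, s.Injective → Tw f s → ∃ (J : E →ₗᵢ[ℂ] E) (a : ℤ × ℤ → ℂ),
      (∀ i, ‖a i‖ = 1) ∧ (∀ i, J (e i) = a i • e (s i)) ∧ ∀ i, ‖e i - N.starProjection (e i)‖ ^ 2 =
        ‖e (s i) - N.starProjection (e (s i))‖ ^ 2 +
          ‖a i • N.starProjection (e (s i)) - J (N.starProjection (e i))‖ ^ 2 := fun s hs h => by
    obtain ⟨J, a, ha, h1, h2⟩ := exJ' e C hC hs h
    refine ⟨J, a, ha, h1, fun i => ?_⟩
    rw [pyth N J (hN ▸ h2), h1, map_smul, ← smul_sub, norm_smul, ha, one_mul]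
  have A2 : ∀ i j, ‖e j - N.starProjection (e j)‖ ^ 2 ≤ ‖e i - N.starProjection (e i)‖ ^ 2 :=
    fun i j => by
      obtain ⟨J, a, -, -, h2⟩ := A1 _ (add_left_injective (j - i)) (hT _)
      rw [h2 i, add_sub_cancel]
      exact le_add_of_nonneg_right (sq_nonneg _)
  have A3 : ∀ s : ℤ × ℤ → ℤ × ℤ, s.Injective → Tw f s →
      (∀ i j, ‖⟪e (s j), N.starProjection (e (s i))⟫_ℂ‖ = ‖⟪e j, N.starProjection (e i)⟫_ℂ‖) ∧
      ∀ i j, j ∉ range s → ⟪e j, N.starProjection (e (s i))⟫_ℂ = 0 := fun s hs h => by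
    obtain ⟨J, a, ha, h1, h2⟩ := A1 s hs h
    have h3 : ∀ i, a i • N.starProjection (e (s i)) = J (N.starProjection (e i)) := fun i =>
      sub_eq_zero.1 (norm_eq_zero.1 (pow_eq_zero_iff two_ne_zero |>.1 (by
        linarith [h2 i, A2 i (s i), A2 (s i) i])))
    refine ⟨fun i j => ?_, fun i j hj => ?_⟩
    · rw [← J.inner_map_map (e j), ← h3, h1, inner_smul_left, inner_smul_right, norm_mul, norm_mul,
        RCLike.norm_conj, ha, ha, one_mul, one_mul]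
    have : (innerSL ℂ (e j)).comp J.toContinuousLinearMap = 0 :=
      ContinuousLinearMap.ext_on (dense_iff_topologicalClosure_eq_top.2 e.dense_span) (by
        rintro _ ⟨k, rfl⟩
        simp [h1, e.orthonormal.2 (show j ≠ s k from fun h => hj ⟨k, h.symm⟩)])
    have h4 : ⟪e j, J (N.starProjection (e i))⟫_ℂ = 0 := DFunLike.congr_fun this _
    rw [← h3, inner_smul_right] at h4
    exact (mul_eq_zero.1 h4).resolve_left (norm_ne_zero_iff.1 (by rw [ha]; exact one_ne_zero))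
  obtain ⟨q, hq⟩ : ∃ q : ℤ × ℤ → ℝ, ∀ j, q j = ‖⟪e j, N.starProjection (e 0)⟫_ℂ‖ := ⟨_, fun _ => rfl⟩
  have A4 : ∀ i j, ‖⟪e j, N.starProjection (e i)⟫_ℂ‖ = q (j - i) := fun i j => by
    rw [hq, ← (A3 _ (add_left_injective i) (hT i)).1 0, sub_add_cancel, zero_add]
  have A5 : ∀ u, u ≠ 0 → q u = 0 := fun u u0 => by
    rcases h' with ⟨x, hx, hx'⟩ | ⟨σ, hσ⟩
    · obtain ⟨i, hi⟩ := hx' (x - u) (by simpa using u0)
      rw [← sub_sub_cancel x u, ← A4, ← hi, (A3 s hs h).2 i x hx, norm_zero]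
    by_contra hu
    have b0 : 0 < q u := lt_of_le_of_ne (by rw [hq]; positivity) (Ne.symm hu)
    have b1 : {w | q u ≤ q w}.Finite := by
      have := (e.orthonormal.inner_products_summable (N.starProjection (e 0))).tendsto_cofinite_zero
      refine (this.eventually (gt_mem_nhds (pow_pos b0 2))).subset fun w hw => ?_
      simp only [mem_compl_iff, mem_ofPred_eq, not_lt, ← hq] at hw ⊢
      gcongr
    refine u0 (comb σ b1 (fun j k t hjk => ?_) (le_refl (q u)))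
    have b2 : ∀ j k, q (σ (j + 1) - σ (k + 1)) = q (σ j - σ k) := fun j k => by
      rw [← hσ, ← hσ, ← A4, (A3 s hs h).1, A4]
    refine le_trans (show q u ≤ q (σ j - σ k) from hjk) (le_of_eq ?_)
    clear hjk
    induction t with
    | zero => simp
    | succ t ih => rw [ih, ← add_assoc, ← add_assoc, b2]
    | pred t ih => rw [ih, ← b2 (j + (-t - 1)), add_assoc, add_assoc, sub_add_cancel]
  have A6 : ∀ i, N.starProjection (e i) = 0 := fun i => by
    have b1 : ∀ i, N.starProjection (e i) = ⟪e i, N.starProjection (e i)⟫_ℂ • e i := fun i => by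
      refine (e.hasSum_repr _).unique ?_
      rw [← e.repr_apply_apply]
      refine hasSum_single i fun j hj => ?_
      rw [e.repr_apply_apply, norm_eq_zero.1 ((A4 i j).trans (A5 _ (sub_ne_zero.2 hj))), zero_smul]
    by_contra hi
    have b2 : ⟪e 0, N.starProjection (e 0)⟫_ℂ ≠ 0 := fun h0 => hi (by
      rw [b1, norm_eq_zero.1 ((A4 i i).trans (by rw [sub_self, hq, h0, norm_zero])), zero_smul])
    have b3 := N.starProjection_apply_mem (e 0)
    rw [b1, smul_mem_iff _ b2, hN] at b3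
    have b4 := inner_eq_zero_symm.1 (b3 _ ⟨f 0, rfl⟩)
    exact f0 (inner_self_eq_zero.1 ((hC _ _).symm.trans b4))
  have A7 : N.starProjection = 0 :=
    ContinuousLinearMap.ext_on (dense_iff_topologicalClosure_eq_top.2 e.dense_span) (by
      rintro _ ⟨k, rfl⟩
      exact A6 k)
  rw [← hN, eq_bot_iff]
  intro c hc
  rw [← starProjection_eq_self_iff.2 hc, A7]
  rfl

omit [CompleteSpace E] in
theorem riesz [CompleteSpace H] [Nontrivial H] {f : ℤ × ℤ → H} {A B : ℝ} (hA : 0 < A)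
    (hf : ∀ φ, Summable (fun i => ‖⟪φ, f i⟫_ℂ‖ ^ 2) ∧ A * ‖φ‖ ^ 2 ≤ ∑' i, ‖⟪φ, f i⟫_ℂ‖ ^ 2 ∧
      ∑' i, ‖⟪φ, f i⟫_ℂ‖ ^ 2 ≤ B * ‖φ‖ ^ 2) (hT : ∀ μ, Tw f (· + μ))
    {s : ℤ × ℤ → ℤ × ℤ} (hs : s.Injective)
    (T : span ℂ (range f) →L[ℂ] H) (h : ∀ i, T ⟨f i, subset_span ⟨i, rfl⟩⟩ = f (s i))
    (h' : (∃ x, x ∉ range s ∧ ∀ i, i ≠ x → i ∈ range s) ∨
      ∃ σ : ℤ ≃ ℤ × ℤ, ∀ k, s (σ k) = σ (k + 1)) :
    ∃ U : lp (fun _ : ℤ × ℤ => ℂ) 2 ≃L[ℂ] H, ∀ i, U (lp.single 2 i 1) = f i := by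
  have hm : ∀ φ, Memℓp (fun i => ⟪f i, φ⟫_ℂ) 2 := fun φ => memℓp_gen (by
    simpa [norm_inner_symm φ] using (hf φ).1)
  let C0 : H →ₗ[ℂ] lp (fun _ : ℤ × ℤ => ℂ) 2 :=
    { toFun := fun φ => ⟨_, hm φ⟩
      map_add' := fun φ ψ => by ext i; simp
      map_smul' := fun c φ => by ext i; simp }
  have n0 : ∀ φ, ‖C0 φ‖ ^ 2 = ∑' i, ‖⟪φ, f i⟫_ℂ‖ ^ 2 := fun φ => by
    have := lp.norm_rpow_eq_tsum (p := 2) (by norm_num) (C0 φ)
    simp only [ENNReal.toReal_ofNat, Real.rpow_ofNat] at this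
    simp only [norm_inner_symm φ]
    exact this
  let C : H →L[ℂ] lp (fun _ : ℤ × ℤ => ℂ) 2 := C0.mkContinuous √B fun φ => by
    rw [← Real.sqrt_sq (norm_nonneg φ), ← Real.sqrt_mul' _ (sq_nonneg _)]
    exact Real.le_sqrt_of_sq_le ((n0 φ).trans_le (hf φ).2.2)
  have n1 : ∀ φ, ‖φ‖ ≤ (√A)⁻¹ * ‖C φ‖ := fun φ => by
    rw [le_inv_mul_iff₀ (Real.sqrt_pos.2 hA), ← Real.sqrt_sq (norm_nonneg φ),
      ← Real.sqrt_mul hA.le]
    exact Real.sqrt_le_iff.2 ⟨norm_nonneg _, (hf φ).2.1.trans_eq (n0 φ).symm⟩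
  let e : HilbertBasis (ℤ × ℤ) ℂ (lp (fun _ : ℤ × ℤ => ℂ) 2) := ⟨LinearIsometryEquiv.refl _ _⟩
  have he : ∀ i, e i = lp.single 2 i 1 := fun i => (e.repr_symm_single i).symm
  have hC : ∀ i φ, ⟪e i, C φ⟫_ℂ = ⟪f i, φ⟫_ℂ := fun i φ => (e.repr_apply_apply _ i).symm
  have f0 : f 0 ≠ 0 := fun h0 => by
    obtain ⟨φ, hφ⟩ := exists_ne (0 : H)
    have a1 : ∀ i, ⟪φ, f i⟫_ℂ = 0 := fun i => by
      obtain ⟨a, ha, h1⟩ := hT i
      obtain ⟨ψ, h2⟩ := h1 φ
      have := h2 0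
      simp only [h0, inner_zero_left, zero_add] at this
      exact inner_eq_zero_symm.1 ((mul_eq_zero.1 this.symm).resolve_left
        (norm_ne_zero_iff.1 (by rw [ha]; exact one_ne_zero)))
    have a2 := (hf φ).2.1
    simp only [a1, norm_zero, ne_eq, OfNat.ofNat_ne_zero, not_false_eq_true, zero_pow,
      tsum_zero] at a2
    exact absurd a2 (not_le.2 (by positivity))
  have a1 := ker_bot e C hC f0 hT hs ⟨fun _ => 1, fun _ => norm_one, fun φ => by
    obtain ⟨g, hg, -⟩ := exists_extension_norm_eq _ ((innerSL ℂ φ).comp T)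
    refine ⟨(toDual ℂ H).symm g, fun i => ?_⟩
    rw [one_mul, ← inner_conj_symm, toDual_symm_apply, ← inner_conj_symm (f (s i)), ← h]
    exact congrArg _ (hg ⟨f i, subset_span ⟨i, rfl⟩⟩)⟩ h'
  have a2 : AntilipschitzWith _ C := C.antilipschitz_of_bound (K := ⟨(√A)⁻¹, by positivity⟩) n1
  have a3 : C.range = ⊤ := by
    rw [← topologicalClosure_eq_top_iff] at a1
    rwa [IsClosed.submodule_topologicalClosure_eq (a2.isClosed_range C.uniformContinuous)] at a1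
  let V := ContinuousLinearEquiv.ofBijective C (LinearMap.ker_eq_bot.2 a2.injective) a3
  refine ⟨ContinuousLinearEquiv.equivOfInverse' C.adjoint (V.symm : _ →L[ℂ] H).adjoint ?_ ?_,
    fun i => ext_inner_right ℂ fun φ => ?_⟩
  · rw [← ContinuousLinearMap.adjoint_comp, ← ContinuousLinearMap.adjoint_id]
    exact congrArg _ V.coe_symm_comp_coe
  · rw [← ContinuousLinearMap.adjoint_comp, ← ContinuousLinearMap.adjoint_id]
    exact congrArg _ V.coe_comp_coe_symm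
  rw [← he, ← hC, ← ContinuousLinearMap.adjoint_inner_left]
  rfl

open MeasureTheory Complex in
lemma gabor {a b : ℝ} {g : ℝ → ℂ} {f : ℤ × ℤ → Lp ℂ 2 (volume : Measure ℝ)}
    (hf : ∀ p, f p =ᵐ[volume] fun x : ℝ =>
      cexp (2 * Real.pi * I * (p.1 * b * x)) * g (x - p.2 * a)) (μ : ℤ × ℤ) : Tw f (· + μ) := by
  have n1 : ∀ t : ℝ, ‖cexp (2 * Real.pi * I * t)‖ = 1 := fun t => by
    rw [← norm_exp_ofReal_mul_I (2 * Real.pi * t)]
    congr 2
    push_cast; ring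
  refine ⟨fun p => cexp (2 * Real.pi * I * (p.1 * b * (μ.2 * a) : ℝ)), fun p => n1 _, fun φ => ?_⟩
  have m1 : MemLp (fun y : ℝ => cexp (2 * Real.pi * I * (-(μ.1 * b * (y + μ.2 * a)) : ℝ)) *
      φ (y + μ.2 * a)) 2 volume := by
    have := (Lp.memLp φ).comp_measurePreserving (measurePreserving_add_right volume (μ.2 * a : ℝ))
    refine this.of_le (.mul (by fun_prop) this.1) (.of_forall fun y => ?_)
    rw [norm_mul, n1, one_mul]
    rfl
  refine ⟨m1.toLp _, fun p => ?_⟩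
  rw [L2.inner_def, L2.inner_def, ← integral_add_right_eq_self
    (fun x => ⟪f (p + μ) x, φ x⟫_ℂ) (μ.2 * a : ℝ), ← integral_const_mul]
  refine integral_congr_ae ?_
  filter_upwards [hf p, m1.coeFn_toLp, (measurePreserving_add_right volume
    (μ.2 * a : ℝ)).quasiMeasurePreserving.ae (hf (p + μ))] with y h1 h2 h3
  rw [h1, h2, h3]
  simp only [RCLike.inner_apply, map_mul, ← exp_conj, conj_ofReal, conj_I, map_ofNat, map_intCast,
    Prod.fst_add, Prod.snd_add]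
  have e1 : cexp (2 * Real.pi * I * (-(μ.1 * b * (y + μ.2 * a)) : ℝ)) *
      cexp (2 * Real.pi * -I * (p.1 * b * y)) = cexp (2 * Real.pi * I * (p.1 * b * (μ.2 * a) : ℝ)) *
      cexp (2 * Real.pi * -I * ((p.1 + μ.1 : ℤ) * b * (y + μ.2 * a : ℝ))) := by
    rw [← exp_add, ← exp_add]
    congr 1
    push_cast; ring
  rw [show y + μ.2 * a - (p.2 + μ.2 : ℤ) * a = y - p.2 * a by push_cast; ring]
  linear_combination φ (y + μ.2 * a) * (starRingEnd ℂ) (g (y - p.2 * a)) * e1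

end Pool.Agent.H.MP_6c6e33_an
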