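import Pool.Agent.H.MP_6c6e33_an.A

set_option autoImplicit false

namespace Pool.Agent.H.MP_6c6e33_an

open Filter Topology Set Submodule InnerProductSpace MeasureTheory Complex

lemma nontriv : Nontrivial (Lp ℂ 2 (volume : Measure ℝ)) := by
  refine ⟨indicatorConstLp 2 (measurableSet_Icc (a := (0 : ℝ)) (b := 1)) (by simp) (1 : ℂ), 0,
    norm_ne_zero_iff.1 ?_⟩
  rw [norm_indicatorConstLp (by simp) (by simp)]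
  simp

variable {a b : ℝ} {g : ℝ → ℂ} {f : ℤ × ℤ → Lp ℂ 2 (volume : Measure ℝ)} {A B : ℝ}

theorem rnat (hf : ∀ p, f p =ᵐ[volume] fun x : ℝ =>
      cexp (2 * Real.pi * I * (p.1 * b * x)) * g (x - p.2 * a)) (hA : 0 < A)
    (hF : ∀ φ, Summable (fun i => ‖⟪φ, f i⟫_ℂ‖ ^ 2) ∧ A * ‖φ‖ ^ 2 ≤ ∑' i, ‖⟪φ, f i⟫_ℂ‖ ^ 2 ∧
      ∑' i, ‖⟪φ, f i⟫_ℂ‖ ^ 2 ≤ B * ‖φ‖ ^ 2) (σ : ℕ ≃ ℤ × ℤ)
    (T : span ℂ (range f) →L[ℂ] Lp ℂ 2 (volume : Measure ℝ))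
    (h : ∀ k, T ⟨f (σ k), subset_span ⟨σ k, rfl⟩⟩ = f (σ (k + 1))) :
    ∃ U : lp (fun _ : ℤ × ℤ => ℂ) 2 ≃L[ℂ] Lp ℂ 2 (volume : Measure ℝ),
      ∀ i, U (lp.single 2 i 1) = f i := by
  have := nontriv
  refine riesz hA hF (gabor hf) (s := fun i => σ (σ.symm i + 1))
    (σ.injective.comp ((add_left_injective 1).comp σ.symm.injective)) T
    (fun i => by simpa using h (σ.symm i)) (Or.inl ⟨σ 0, ?_, fun i hi => ?_⟩)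
  · rintro ⟨i, hi⟩
    simp at hi
  obtain ⟨k, rfl⟩ := σ.surjective i
  obtain ⟨k, rfl⟩ := Nat.exists_eq_succ_of_ne_zero (show k ≠ 0 from fun e => hi (by rw [e]))
  exact ⟨σ k, by simp⟩

theorem rint (hf : ∀ p, f p =ᵐ[volume] fun x : ℝ =>
      cexp (2 * Real.pi * I * (p.1 * b * x)) * g (x - p.2 * a)) (hA : 0 < A)
    (hF : ∀ φ, Summable (fun i => ‖⟪φ, f i⟫_ℂ‖ ^ 2) ∧ A * ‖φ‖ ^ 2 ≤ ∑' i, ‖⟪φ, f i⟫_ℂ‖ ^ 2 ∧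
      ∑' i, ‖⟪φ, f i⟫_ℂ‖ ^ 2 ≤ B * ‖φ‖ ^ 2) (σ : ℤ ≃ ℤ × ℤ)
    (T : span ℂ (range f) →L[ℂ] Lp ℂ 2 (volume : Measure ℝ))
    (h : ∀ k, T ⟨f (σ k), subset_span ⟨σ k, rfl⟩⟩ = f (σ (k + 1))) :
    ∃ U : lp (fun _ : ℤ × ℤ => ℂ) 2 ≃L[ℂ] Lp ℂ 2 (volume : Measure ℝ),
      ∀ i, U (lp.single 2 i 1) = f i := by
  have := nontriv
  exact riesz hA hF (gabor hf) (s := fun i => σ (σ.symm i + 1))
    (σ.injective.comp ((add_left_injective 1).comp σ.symm.injective)) T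
    (fun i => by simpa using h (σ.symm i)) (Or.inr ⟨σ, fun k => by simp⟩)

theorem rep {H : Type} [NormedAddCommGroup H] [NormedSpace ℂ H] {f : ℤ × ℤ → H}
    (h : ∃ U : lp (fun _ : ℤ × ℤ => ℂ) 2 ≃L[ℂ] H, ∀ i, U (lp.single 2 i 1) = f i)
    {s : ℤ × ℤ → ℤ × ℤ} (hs : s.Injective) :
    ∃ T : H →L[ℂ] H, Function.Injective T ∧ ∀ i, T (f i) = f (s i) := by
  obtain ⟨U, hU⟩ := h
  let e : HilbertBasis (ℤ × ℤ) ℂ (lp (fun _ : ℤ × ℤ => ℂ) 2) := ⟨LinearIsometryEquiv.refl _ _⟩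
  have he : ∀ i, e i = lp.single 2 i 1 := fun i => (e.repr_symm_single i).symm
  obtain ⟨J, hJ⟩ := exJ e hs (a := fun _ => 1) fun _ => norm_one
  refine ⟨U.toContinuousLinearMap ∘L J.toContinuousLinearMap ∘L U.symm.toContinuousLinearMap,
    U.injective.comp (J.injective.comp U.symm.injective), fun i => ?_⟩
  simp [← hU, ← he, hJ]

end Pool.Agent.H.MP_6c6e33_an
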